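import Pool.Agent.Q141.CJC.Conc

set_option autoImplicit false

/-!
# MP_b1aa48_co: canonical join complexes are not closed under induced subcomplexes

There is a finite semidistributive lattice `L` with 12 join-irreducible elements and a set `W` of
11 of them such that the subcomplex of the canonical join complex of `L` induced on `W` is not the
canonical join complex of any finite semidistributive lattice. The non-edges of this induced
subcomplex form the Grötzsch graph.
-/

namespace Pool.Agent.Results.MP_b1aa48_co.NotClosed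

open Pool.Agent.Q141.CJC

universe u

/-- the relation, row by row, as bit masks -/
def row (x : Fin 12) : ℕ :=
  [1, 3, 2054, 668, 17, 1074, 1093, 3202, 1300, 1537, 1024, 2050].getD x 0

/-- the relation -/
def Arr (x y : Fin 12) : Prop := (row x).testBit y = true

instance : DecidableRel Arr := fun x y => inferInstanceAs (Decidable ((row x).testBit y = true))

instance (x y : Fin 12) : Decidable (Quo Arr x y) :=
  inferInstanceAs (Decidable (∀ z, Arr y z → Arr x z))

instance (x y : Fin 12) : Decidable (Sub' Arr x y) :=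
  inferInstanceAs (Decidable (∀ z, Arr z x → Arr z y))

set_option maxRecDepth 100000 in
lemma arr_TA : TA Arr where
  refl := by decide
  fact := by decide
  antiQ := by decide
  antiS := by decide
  brick := by decide

lemma no_col : ∀ z u0 u1 : Fin 3, u1 ≠ u0 → ∀ u2, u2 ≠ u1 → ∀ u3, u3 ≠ u2 → ∀ u4, u3 ≠ u4 → u4 ≠ u0 →
    ∀ w0, w0 ≠ z → w0 ≠ u1 → w0 ≠ u4 → ∀ w1, w1 ≠ z → w1 ≠ u0 → w1 ≠ u2 →
    ∀ w2, w2 ≠ z → w2 ≠ u1 → u3 ≠ w2 → ∀ w3, w3 ≠ z → w3 ≠ u2 → w3 ≠ u4 →
    ∀ w4, w4 ≠ z → u3 ≠ w4 → w4 ≠ u0 → False := by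
  decide

/-- the vertex of `L` with the index `v` -/
def vert (v : Fin 12) : {j : Lat Arr // SupIrred j} := ⟨TT Arr v, TT_irred arr_TA v⟩

lemma vert_inj {v w : Fin 12} (h : vert v = vert w) : v = w :=
  TT_inj arr_TA (congrArg Subtype.val h)

/-- the set of vertices -/
def W : Set {j : Lat Arr // SupIrred j} := vert '' {v | v ≠ 11}

/-- There are a finite semidistributive lattice `L` and a set `W` of join-irreducible elements of
`L` such that the subcomplex of the canonical join complex of `L` induced on `W` is not isomorphic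
to the canonical join complex of any finite semidistributive lattice. -/
theorem result : ∃ (L : Type) (_ : Lattice L), Finite L ∧ Semidistributive L ∧
    ∃ W : Set {j : L // SupIrred j},
      ¬ IsCanonicalJoinComplex.{u} (inducedSubcomplex (canonicalJoinComplex L) W) := by
  refine ⟨Lat Arr, inferInstance, inferInstance, sd arr_TA, W, ?_⟩
  intro hC
  set 𝓕 := inducedSubcomplex (canonicalJoinComplex (Lat Arr)) W with hF
  have hface : ∀ (v w : Fin 12) (hv : vert v ∈ W) (hw : vert w ∈ W), v ≠ w →
      (({⟨vert v, hv⟩, ⟨vert w, hw⟩} : Set W) ∈ 𝓕 ↔ ¬ Arr v w ∧ ¬ Arr w v) := by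
    intro v w hv hw hne
    rw [← TT_face arr_TA hne]
    rw [hF]
    unfold inducedSubcomplex canonicalJoinComplex
    rw [Set.mem_ofPred_eq, Set.mem_ofPred_eq, Set.image_pair, Set.image_pair]
    rfl
  let K : SimpleGraph W :=
    { Adj := fun a b => a ≠ b ∧ ({a, b} : Set W) ∉ 𝓕
      symm := ⟨fun a b h => ⟨h.1.symm, by rw [Set.pair_comm]; exact h.2⟩⟩
      loopless := ⟨fun a h => h.1 rfl⟩ }
  have hrep : ∀ a : W, ∃ v : Fin 12, v ≠ 11 ∧ ∃ hv : vert v ∈ W, a = ⟨vert v, hv⟩ := by
    rintro ⟨a, v, hv, rfl⟩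
    exact ⟨v, hv, ⟨v, hv, rfl⟩, rfl⟩
  have hadj : ∀ (v w : Fin 12) (hv : vert v ∈ W) (hw : vert w ∈ W),
      K.Adj ⟨vert v, hv⟩ ⟨vert w, hw⟩ ↔ v ≠ w ∧ (Arr v w ∨ Arr w v) := by
    intro v w hv hw
    constructor
    · rintro ⟨h1, h2⟩
      have hne : v ≠ w := by rintro rfl; exact h1 rfl
      refine ⟨hne, ?_⟩
      rw [hface v w hv hw hne] at h2
      tauto
    · rintro ⟨h1, h2⟩
      refine ⟨fun h3 => h1 (vert_inj (congrArg Subtype.val h3)), ?_⟩
      rw [hface v w hv hw h1]
      tauto
  have htri : ∀ a b c : W, K.Adj a b → K.Adj b c → ¬ K.Adj a c := by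
    intro a b c
    obtain ⟨v, hv', hv, rfl⟩ := hrep a
    obtain ⟨w, hw', hw, rfl⟩ := hrep b
    obtain ⟨x, hx', hx, rfl⟩ := hrep c
    rw [hadj, hadj, hadj]
    have hdec : ∀ v w x : Fin 12, v ≠ 11 → w ≠ 11 → x ≠ 11 → v ≠ w ∧ (Arr v w ∨ Arr w v) →
        w ≠ x ∧ (Arr w x ∨ Arr x w) → ¬ (v ≠ x ∧ (Arr v x ∨ Arr x v)) := by
      set_option maxRecDepth 100000 in
      decide
    exact hdec v w x hv' hw' hx'
  have hcol := colorable_of_isCanonicalJoinComplex K htri 𝓕 (fun a b hab => by
    show _ ↔ ¬ (a ≠ b ∧ _)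
    tauto) hC
  obtain ⟨c⟩ := hcol
  let col : ∀ v : Fin 12, v ≠ 11 → Fin 3 := fun v hv => c ⟨vert v, v, hv, rfl⟩
  have hc : ∀ v w (hv : v ≠ 11) (hw : w ≠ 11), v ≠ w → Arr v w → col v hv ≠ col w hw := by
    intro v w hv hw h1 h2
    exact c.valid ((hadj v w _ _).2 ⟨h1, Or.inl h2⟩)
  exact no_col (col 10 (by decide)) (col 0 (by decide)) (col 1 (by decide))
    (hc 1 0 (by decide) (by decide) (by decide) (by decide)) (col 2 (by decide))
    (hc 2 1 (by decide) (by decide) (by decide) (by decide)) (col 3 (by decide))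
    (hc 3 2 (by decide) (by decide) (by decide) (by decide)) (col 4 (by decide))
    (hc 3 4 (by decide) (by decide) (by decide) (by decide)) (hc 4 0 (by decide) (by decide) (by decide) (by decide))
    (col 5 (by decide)) (hc 5 10 (by decide) (by decide) (by decide) (by decide)) (hc 5 1 (by decide) (by decide) (by decide) (by decide))
    (hc 5 4 (by decide) (by decide) (by decide) (by decide))
    (col 6 (by decide)) (hc 6 10 (by decide) (by decide) (by decide) (by decide)) (hc 6 0 (by decide) (by decide) (by decide) (by decide))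
    (hc 6 2 (by decide) (by decide) (by decide) (by decide))
    (col 7 (by decide)) (hc 7 10 (by decide) (by decide) (by decide) (by decide)) (hc 7 1 (by decide) (by decide) (by decide) (by decide))
    (hc 3 7 (by decide) (by decide) (by decide) (by decide))
    (col 8 (by decide)) (hc 8 10 (by decide) (by decide) (by decide) (by decide)) (hc 8 2 (by decide) (by decide) (by decide) (by decide))
    (hc 8 4 (by decide) (by decide) (by decide) (by decide))
    (col 9 (by decide)) (hc 9 10 (by decide) (by decide) (by decide) (by decide)) (hc 3 9 (by decide) (by decide) (by decide) (by decide))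
    (hc 9 0 (by decide) (by decide) (by decide) (by decide))

end Pool.Agent.Results.MP_b1aa48_co.NotClosed
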